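import Pool.Agent.K4H43.IW.Stm
import Pool.Agent.Y800.HM

/-!
# The `p`-rank of the class group of a number field is finite
-/

set_option autoImplicit false

namespace Pool.Agent.K4H83.IWFin

open Subgroup Module IntermediateField Pool.Agent.Q60.MU Pool.Agent.K4H24.IW Pool.Agent.K4H43.IW
open scoped Pointwise commutatorElement

section grp

variable {G : Type} [Group G]

/-- the index of the normal core -/
theorem index_core_le {H : Subgroup G} (hH : H.index ≠ 0) : H.normalCore.index ≤ H.index.factorial := by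
  have : H.FiniteIndex := ⟨hH⟩
  have hfin : Finite (G ⧸ H) := inferInstance
  have hft : Fintype (G ⧸ H) := Fintype.ofFinite _
  rw [normalCore_eq_ker, index_ker]
  refine (Nat.card_le_card_of_injective _ Subtype.val_injective).trans ?_
  rw [Nat.card_perm]
  rfl

/-- the subgroups above a normal subgroup of finite index -/
theorem finite_above {H : Subgroup G} (hn : H.Normal) (hH : H.index ≠ 0) :
    {W : Subgroup G | H ≤ W}.Finite := by
  have : H.FiniteIndex := ⟨hH⟩
  have hfin : Finite (G ⧸ H) := inferInstance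
  refine (Set.finite_range (comap (QuotientGroup.mk' H))).subset ?_
  intro W hW
  refine ⟨W.map (QuotientGroup.mk' H), ?_⟩
  rw [comap_map_eq, QuotientGroup.ker_mk', sup_eq_left.2 hW]

theorem exists_functional0 {p : ℕ} [Fact p.Prime] {A : Type} [AddCommGroup A] [Module (ZMod p) A]
    {a : A} (ha : a ≠ 0) : ∃ φ : A →ₗ[ZMod p] ZMod p, φ a ≠ 0 := by
  by_contra hcon
  push Not at hcon
  exact ha ((Module.forall_dual_apply_eq_zero_iff (ZMod p) _).1 hcon)

/-- characters of elementary abelian groups -/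
theorem exists_hom {p : ℕ} (hp : p.Prime) {A : Type} [CommGroup A] (h : ∀ a : A, a ^ p = 1)
    {a : A} (ha : a ≠ 1) : ∃ g : A →* Multiplicative (ZMod p), g a ≠ 1 := by
  have hpF : Fact p.Prime := ⟨hp⟩
  letI : Module (ZMod p) (Additive A) := AddCommGroup.zmodModule (G := Additive A) h
  obtain ⟨φ, hφ⟩ := exists_functional0 (p := p) (A := Additive A) (a := Additive.ofMul a) ha
  exact ⟨AddMonoidHom.toMultiplicativeRight φ.toAddMonoidHom, hφ⟩

/-- separation by subgroups of index `p` -/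
theorem separate {p : ℕ} (hp : p.Prime) {Y W : Subgroup G} (hWY : W ≤ Y)
    (h1 : ∀ a ∈ Y, a ^ p ∈ W) (h2 : ∀ a ∈ Y, ∀ b ∈ Y, ⁅a, b⁆ ∈ W) {y : G} (hy : y ∈ Y)
    (hyW : y ∉ W) : ∃ W1 : Subgroup G, W ≤ W1 ∧ W1 ≤ Y ∧ W1.relIndex Y ≤ p ∧
      W1.relIndex Y ≠ 0 ∧ y ∉ W1 := by
  classical
  have hpF : Fact p.Prime := ⟨hp⟩
  obtain ⟨A, _, ψ, hψ, -⟩ := exists_quot (K := Y) (W := W) (fun k hk x hx => by
    have h3 : k * x * k⁻¹ = ⁅k, x⁆ * x := by
      rw [commutatorElement_def]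
      group
    rw [h3]
    exact W.mul_mem (h2 k hk x (hWY hx)) hx) h2
  obtain ⟨g0, hg0⟩ := exists_hom hp (A := ψ.range) (by
    rintro ⟨_, k, rfl⟩
    apply Subtype.ext
    show (ψ k) ^ p = 1
    rw [← map_pow]
    exact (hψ _).2 (h1 k k.2)) (a := ⟨ψ ⟨y, hy⟩, _, rfl⟩) (by
    intro h3
    apply hyW
    exact (hψ ⟨y, hy⟩).1 (congrArg Subtype.val h3))
  let g : Y →* Multiplicative (ZMod p) := g0.comp ψ.rangeRestrict
  have hrel : (g.ker.map Y.subtype).relIndex Y = Nat.card g.range := by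
    rw [← index_ker]
    show ((g.ker.map Y.subtype).subgroupOf Y).index = _
    congr 1
    rw [← comap_subtype]
    exact comap_map_eq_self_of_injective Y.subtype_injective g.ker
  have hfinr : Finite g.range := by
    have : Finite (Multiplicative (ZMod p)) := inferInstanceAs (Finite (ZMod p))
    infer_instance
  refine ⟨g.ker.map Y.subtype, ?_, ?_, ?_, ?_, ?_⟩
  · intro x hx
    refine ⟨⟨x, hWY hx⟩, ?_, rfl⟩
    show g0 (ψ.rangeRestrict _) = 1
    have h3 : ψ.rangeRestrict ⟨x, hWY hx⟩ = 1 := Subtype.ext ((hψ ⟨x, hWY hx⟩).2 hx)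
    rw [h3, map_one]
  · rintro _ ⟨x, -, rfl⟩
    exact x.2
  · rw [hrel]
    have : Finite (Multiplicative (ZMod p)) := inferInstanceAs (Finite (ZMod p))
    refine (Nat.card_le_card_of_injective _ Subtype.val_injective).trans ?_
    show Nat.card (ZMod p) ≤ p
    rw [Nat.card_zmod]
  · rw [hrel]
    exact Nat.card_pos.ne'
  · rintro ⟨x, hx, hxy⟩
    apply hg0
    have h3 : x = ⟨y, hy⟩ := Subtype.ext hxy
    rw [← h3]
    exact hx

end grp

/-- **Finiteness of the `p`-rank.** -/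
theorem s_fin (hval : S_VAL) : S_FIN := by
  classical
  intro p hp Y hYo hYf
  -- the bad primes
  have hYF : Y.FiniteIndex := ⟨hYf⟩
  set K := Y.normalCore with hKdef
  have hKn : K.Normal := normalCore_normal _
  have hKo : IsOpen (K : Set Gal(Qb/ℚ)) := isOpen_normalCore hYo hYf
  have hKf : K.index ≠ 0 := by
    have : K.FiniteIndex := Y.finiteIndex_normalCore
    exact FiniteIndex.index_ne_zero
  have hfd := finite_fixed hKo hKf
  have hfix := fix_fixed hKo
  obtain ⟨c, hc0, hc⟩ := exists_bad (fixedField K)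
  rw [hfix] at hc
  set D := (p * Y.index).factorial with hD
  have hfin := Pool.Agent.Y800.HM.finite_subgroups c.primeFactors
    (fun q hq => Nat.prime_of_mem_primeFactors hq) D
  set 𝓜 : Set (Subgroup Gal(Qb/ℚ)) := {H : Subgroup Gal(Qb/ℚ) | H.Normal ∧
    IsOpen (H : Set Gal(Qb/ℚ)) ∧ H.index ≤ D ∧
      ∀ q : ℕ, q.Prime → q ∉ c.primeFactors → ∀ P : Ideal Pool.Agent.Y800.ZBar, P.IsMaximal →
        (q : Pool.Agent.Y800.ZBar) ∈ P →
        ∀ τ : Gal(Qb/ℚ), Pool.Agent.Y800.InInertia P τ → τ ∈ H} with h𝓜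
  have hfin' : 𝓜.Finite := hfin
  set X : Set (Subgroup Gal(Qb/ℚ)) := {W1 | W1 ≤ Y ∧ IsOpen (W1 : Set Gal(Qb/ℚ)) ∧
    W1.relIndex Y ≤ p ∧ W1.relIndex Y ≠ 0 ∧ gens p inertia Y ⊆ W1} with hX
  have hXcore : ∀ W1 ∈ X, W1.normalCore ∈ 𝓜 ∧ W1.normalCore.index ≠ 0 := by
    rintro W1 ⟨hWY, hWo, hWp, hWf, hg⟩
    have hmul := relIndex_mul_index hWY
    have hW0 : W1.index ≠ 0 := by
      rw [← hmul]
      exact mul_ne_zero hWf hYf
    have hWF : W1.FiniteIndex := ⟨hW0⟩
    refine ⟨⟨normalCore_normal _, isOpen_normalCore hWo hW0, ?_, ?_⟩, ?_⟩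
    · refine (index_core_le hW0).trans (Nat.factorial_le ?_)
      rw [← hmul]
      exact Nat.mul_le_mul_right _ hWp
    · intro q hq hqc P hP hqP τ hτ
      obtain ⟨A, hA1, hA2⟩ := hval P hP
      have hqA : (q : Qb) ∈ A.nonunits := by
        have h1 := (hA1 (q : NumberField.RingOfIntegers (AlgebraicClosure ℚ))).2 hqP
        simpa using h1
      have hτA : τ ∈ inertia A := hA2 τ hτ
      have hτK : τ ∈ K := by
        by_contra h
        obtain ⟨ℓ, hℓ, hℓA⟩ := exists_prime hc0 (hc A τ hτA h)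
        have hcop : ℓ.Coprime q := (Nat.coprime_primes (Nat.prime_of_mem_primeFactors hℓ) hq).2
          fun h => hqc (h ▸ hℓ)
        obtain ⟨u, v, huv⟩ := Int.isCoprime_iff_gcd_eq_one.2 (by exact_mod_cast hcop : Int.gcd ℓ q = 1)
        have h7 : (1 : Qb) ∈ A.nonunits := by
          have h8 : (1 : Qb) = (ℓ : Qb) * (u : Qb) + (q : Qb) * (v : Qb) := by
            have h9 := congrArg (Int.cast : ℤ → Qb) huv
            push_cast at h9
            linear_combination -h9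
          rw [h8]
          exact add_mem (mul_nonunits hℓA (intCast_mem A u)) (mul_nonunits hqA (intCast_mem A v))
        rw [ValuationSubring.mem_nonunits_iff, map_one] at h7
        exact lt_irrefl _ h7
      intro g
      have h1 : g * τ * g⁻¹ ∈ inertia (g • A) := inertia_conj g A τ hτA
      have h2 : g * τ * g⁻¹ ∈ K := hKn.conj_mem τ hτK g
      exact hg (Or.inr ⟨normalCore_le _ h2, _, h1⟩)
    · have : W1.normalCore.FiniteIndex := W1.finiteIndex_normalCore
      exact FiniteIndex.index_ne_zero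
  have hXfin : X.Finite := by
    have h1 : (⋃ H ∈ {H ∈ 𝓜 | H.index ≠ 0}, {W : Subgroup Gal(Qb/ℚ) | H ≤ W}).Finite :=
      (hfin'.subset (Set.sep_subset _ _)).biUnion fun H hH => finite_above hH.1.1 hH.2
    refine h1.subset fun W1 hW1 => ?_
    obtain ⟨h2, h3⟩ := hXcore W1 hW1
    exact Set.mem_biUnion (show W1.normalCore ∈ {H ∈ 𝓜 | H.index ≠ 0} from ⟨h2, h3⟩)
      (normalCore_le W1)
  have hXF : Finite X := hXfin.to_subtype
  set V : Subgroup Gal(Qb/ℚ) := ⨅ W1 : X, W1.1 with hV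
  have hV0 : V.relIndex Y ≠ 0 := relIndex_iInf_ne_zero fun W1 => W1.2.2.2.2.1
  refine ⟨V.relIndex Y, fun W hWY hWo hWf hg => ?_⟩
  -- `V ⊓ Y ≤ W`
  have hle : V ⊓ Y ≤ W := by
    rintro y ⟨hyV, hyY⟩
    by_contra hyW
    obtain ⟨W1, h1, h2, h3, h4, h5⟩ := separate hp hWY (fun a ha => hg (Or.inl (Or.inl ⟨a, ha, rfl⟩)))
      (fun a ha b hb => hg (Or.inl (Or.inr ⟨a, ha, b, hb, rfl⟩))) hyY hyW
    apply h5
    have h6 : W1 ∈ X := ⟨h2, Subgroup.isOpen_mono h1 hWo, h3, h4, fun x hx => h1 (hg hx)⟩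
    exact (mem_iInf.1 hyV) ⟨W1, h6⟩
  rw [← inf_relIndex_right V Y] at hV0 ⊢
  exact relIndex_le_of_le_left hle hV0

end Pool.Agent.K4H83.IWFin
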